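import Mathlib
import Pool.Agent.Run7.h53.SX.Thm

/-!
# MP_301213_nt: multiple zeta values whose words have a common last part have no relations of small height

Let `U` be a finite set of words in positive integers and `s` a nonempty word such that the words `u s`, `u ∈ U`, are
admissible. The multiple zeta values `ζ(u s)` (the letters of `s` belong to the SMALLEST summation variables) satisfy no linear
relation with integer coefficients, not all zero, of absolute value at most `κ · length s`, where `κ > 0` depends only on
`U`, not on `s`; and the value of such a linear form is at least `κ ζ(s_1 + M, s_2, ..., s_L)` in absolute value, with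
`M = M(U)`. If `U` is the set of the words of weight `W` in the letters `2`, `3` and `s` is a word in `2`, `3`, the `ζ(u s)`
are Hoffman elements of weight `W + wt s`, and Hoffman's conjecture says that they satisfy no relation at all. So for fixed
`W` and fixed height there is no such relation as soon as the weight is large, for all `s`.

The result of the starting library for words with a common FIRST part (`CommonPrefix`, helper217) has a different proof, and
neither result implies the other one. Here the proof is as follows. `ζ(u s)` is the sum of the values `T_u(m)`, `m ≥ length s`,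
of the tail of `ζ(u)` with positive weights which depend on `s`. The tails have asymptotic expansions
`T_u(m) ~ ∑ α_k / ((m + 1) ... (m + k))` with rational coefficients (inverse factorial series, for which multiplication by
`1 / m` and summation are explicit), so the sign of `∑ c_u T_u(m)` does not change for `m ≥ κ⁻¹ max |c_u|`, if finitely many
coefficients of the expansion determine the integers `c_u`. This follows from: a combination of truncated multiple zeta
values with polynomial coefficients which decreases faster than all powers of `1 / m` is zero (`flat_zero`), proved by
differences from the linear independence of the truncated multiple zeta values over the polynomials (starting library,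
helper760).
-/

set_option autoImplicit false

namespace Pool.Agent.Results.MP_301213_nt.CommonSuffix

/-- the multiple zeta value of the list `l`, the first entry belongs to the largest summation variable, in the words of
`S16469` -/
noncomputable def mzv (l : List ℕ) : ℝ :=
  ∑' m : {m : Fin l.length → ℕ // StrictAnti m ∧ ∀ i, 0 < m i}, ∏ i, ((m.1 i : ℝ) ^ (l.get i))⁻¹

/-- positive entries, the first one (if there is one) is at least two -/
def Admissible (l : List ℕ) : Prop := (∀ x ∈ l, 1 ≤ x) ∧ ∀ x ∈ l.head?, 2 ≤ x

lemma adm_iff (l : List ℕ) : Admissible l ↔ Pool.Agent.H447R2.MZ.Adm l := by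
  unfold Admissible Pool.Agent.H447R2.MZ.Adm
  refine and_congr_right fun _ => ?_
  cases l with
  | nil => simp
  | cons x l =>
    constructor
    · intro h a t hat
      have := (List.cons.inj hat).1
      subst this
      exact h x (by simp)
    · intro h y hy
      have : x = y := by simpa using hy
      subst this
      exact h x l rfl

lemma mzv_eq {l : List ℕ} (hl : Pool.Agent.H447R2.MZ.Adm l) : mzv l = Pool.Agent.H447R2.MZ.val l := by
  have h1 := Pool.Agent.H447R2.MZ.hasSum_val l.length l.get (by rw [List.ofFn_get]; exact hl)
  rw [List.ofFn_get] at h1
  exact h1.tsum_eq

/-- **Theorem.** For every finite set `U` of words there are `κ > 0` and `M` such that for all words `s = a s'` with `u s`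
admissible for `u ∈ U` and all integers `c_u`, `u ∈ U`, not all zero, of absolute value at most `κ · length s`:
`|∑ c_u ζ(u s)| ≥ κ ζ((a + M) s') > 0`. In particular the numbers `ζ(u s)`, `u ∈ U`, satisfy no nontrivial linear relation
with integer coefficients of absolute value at most `κ · length s`. -/
theorem result (U : Finset (List ℕ)) : ∃ κ : ℝ, 0 < κ ∧ ∃ M : ℕ, ∀ (a : ℕ) (s' : List ℕ),
    (∀ u ∈ U, Admissible (u ++ a :: s')) → ∀ c : List ℕ → ℤ,
    (∀ u ∈ U, |(c u : ℝ)| ≤ κ * (a :: s').length) → (∃ u ∈ U, c u ≠ 0) →
      0 < mzv ((a + M) :: s') ∧
        κ * mzv ((a + M) :: s') ≤ |∑ u ∈ U, (c u : ℝ) * mzv (u ++ a :: s')| := by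
  obtain ⟨κ, hκ, M, h⟩ := Run7.h53.SX.main U
  refine ⟨κ, hκ, M, fun a s' hadm c hc hne => ?_⟩
  have hadm' : ∀ u ∈ U, Pool.Agent.H447R2.MZ.Adm (u ++ a :: s') := fun u hu =>
    (adm_iff _).1 (hadm u hu)
  obtain ⟨h1, h2, h3⟩ := h a s' hadm' c (fun u hu => by
    have := hc u hu
    rw [List.length_cons] at this
    push_cast at this
    exact this) hne
  rw [mzv_eq h1]
  refine ⟨h2, h3.trans (le_of_eq ?_)⟩
  congr 1
  refine Finset.sum_congr rfl fun u hu => ?_
  rw [mzv_eq (hadm' u hu)]

end Pool.Agent.Results.MP_301213_nt.CommonSuffix
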