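import Pool.Agent.Run7.h467.GA.One
import Pool.Agent.Results.MP_e54452_nt.AlmostAllTuples

/-!
# Hoffman's basis conjecture and the relations of one weight at the entries of all good rational approximations

Let `C_{k,d}` be the set of the words of weight `k` in the letters `2` and `3` with at most `d` letters `3`, and `H_{k,d}` the
family of the multiple zeta values of these words (`d` may be infinite). Let `G` be a `ℚ`-algebra without zero divisors with
elements `mot(q)` for the admissible indices `q`, `mot() = 1`, that have the stuffle product, and with a ring homomorphism `per`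
to `ℂ` that maps `mot(q)` to `ζ(q)`; for example the motivic multiple zeta values. For these the elements of the words of weight
`k` in the letters `2`, `3` are linearly independent (Brown).

A pattern in `k` variables is a list of letters `b + u_1 s_1 + ... + u_k s_k` with natural numbers `b`, `u_j`; at a
tuple `s` of natural numbers it gives an index. Its constant part is the list of its first letters up to the first letter
that depends on the variables (the first letter of an index belongs to the largest summation variable). We consider patterns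
`w_1, ..., w_r` which have the same weight for all `s`, and the linear relations between the numbers `ζ(w_i(s))`. The relation
lifts if it holds for the `mot(w_i(s))`.

Let `α` be a point of `ℝ ^ d`, and let `(p, q)`, `p ∈ ℤ ^ d`, run through its approximations with
`|α_i - p_i / q| ≤ c q ^ (-1-σ)`; by Dirichlet's theorem there are infinitely many for `σ = 1 / d`, `c = 1`, for every `α`.
We consider ALL tuples `s` of `k ≤ d + 1` natural numbers of the same order of magnitude which are small linearly independent
combinations `u_j · p + v_j q` of the entries of such an approximation, up to small errors: with coefficients at most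
`c q ^ η` and errors at most `c q ^ θ`. For example `s = (q, p_1, ..., p_d)` or `s = (p_1, ..., p_d)`, with errors at most `c`.
The relations lift generically, for a class of patterns, if for all `k`, `d`, `σ`, `η`, `θ` and all `α` but a set of
Hausdorff dimension at most `(d + (k (d + 2) - 1) η + k θ) / (1 + σ)`, for all patterns of the class in `k` variables and
all `C`, `c`, all relations with integer coefficients at most `C ^ q` lift for all these tuples, for all large `q`. For
`σ = 1 / d` the bound is smaller than `d` if `(k (d + 2) - 1) η + k θ < 1`; it is `d ^ 2 / (d + 1)` for `η = θ = 0`.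

Theorem.
(1) Let the elements `mot(w)` of the words `w` of weight `k` in the letters `2`, `3` be linearly independent, for all `k`. Let `N`
and `d` be natural numbers or infinite. The family `H_{k,d}` is linearly independent for all `k ≤ N`, if and only if the
relations lift generically for patterns of the same weight whose constant parts are words of weight at most `N` in the letters
`2`, `3` with at most `d` letters `3`, and if and only if for all such patterns in one variable that contain the variable this
is so at one real number `α` (for `σ = 1`, `η = θ = 0`). For infinite `N` and `d` the first statement is Q1.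
(2) The relations lift generically for patterns of the same weight whose constant parts are words in `2`, `3` of weight at
most four or words without the letter `3`, if the relations of weight three and four and Euler's relations hold for the
`mot(q)`, as for the motivic multiple zeta values.

So the conjecture is a statement about the constant parts alone: at generic tuples a relation between the values of patterns is
never an accident. `MP_e54452_nt.AlmostAllTuples` (starting file) has such statements for all but `K N ^ (k - 1)` of the tuples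
in `[N, κ N] ^ k`. This does not exclude exceptional tuples near all directions. The good approximations are a very thin set of
vectors; the size of the set of the exceptional `α` is estimated by the Hausdorff-Cantelli lemma, after a count of the vectors
`(q, p)` for which some independent small forms are near an exceptional tuple (`Pool.Agent.Run7.h467.GA`).
-/

set_option autoImplicit false

open Filter MeasureTheory

namespace Pool.Agent.Results.MP_301213_nt.GoodApproximations

open MP_e54452_nt.AlmostAllTuples (mzv Letter index AdmissiblePattern Admissible constantPart HasVariable SameWeight Lifts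
  SmallRelations EulerRelations MotivicValues AlmostAll FrontSet)

/-- `C_{k,d}`: the words of weight `k` in the letters `2` and `3` with at most `d` letters `3` -/
def C (k : ℕ) (d : ℕ∞) : Set (List ℕ) := {w | (∀ s ∈ w, s = 2 ∨ s = 3) ∧ ((w.count 3 : ℕ) : ℕ∞) ≤ d ∧ w.sum = k}

/-- the words of weight at most `N` in the letters `2` and `3` with at most `d` letters `3` -/
def words (N d : ℕ∞) : Set (List ℕ) :=
  {w | (∀ s ∈ w, s = 2 ∨ s = 3) ∧ ((w.count 3 : ℕ) : ℕ∞) ≤ d ∧ ((w.sum : ℕ) : ℕ∞) ≤ N}

/-- the elements of the words of weight `k` in the letters `2`, `3` are linearly independent, for all `k` -/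
def HoffmanIndependent (G : MotivicValues) : Prop := ∀ k, LinearIndependent ℚ fun w : C k ⊤ => G.mot w

/-- The members of the tuple `s` are at distance at most `c q ^ θ` from the values `u_j · p + v_j q` of linearly independent
integral linear forms with coefficients at most `c q ^ η`. -/
def NearForms {d k : ℕ} (η θ c : ℝ) (p : Fin d → ℤ) (q : ℕ) (s : Fin k → ℕ) : Prop :=
  ∃ (u : Fin k → Fin d → ℤ) (v : Fin k → ℤ),
    (∀ a : Fin k → ℤ, (∀ i, ∑ j, a j * u j i = 0) → ∑ j, a j * v j = 0 → a = 0) ∧
    (∀ j i, |(u j i : ℝ)| ≤ c * (q : ℝ) ^ η) ∧ (∀ j, |(v j : ℝ)| ≤ c * (q : ℝ) ^ η) ∧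
    ∀ j, |(s j : ℝ) - (∑ i, (u j i : ℝ) * p i + v j * q)| ≤ c * (q : ℝ) ^ θ

/-- For all `C`, `c`, all large `q` and all `p` with `|α_i - p_i / q| ≤ c q ^ (-1-σ)` the linear relations between the numbers
`ζ(w_i(s))` with integer coefficients at most `C ^ q` hold for the `mot(w_i(s))`, for all tuples `s` of natural numbers near
independent small forms in `(p, q)`, with `s_i ≤ c s_j` and `q ≤ c s_j` for all `i`, `j`. -/
def LiftsNear (G : MotivicValues) {k r d : ℕ} (w : Fin r → List (Letter k)) (σ η θ : ℝ) (α : Fin d → ℝ) : Prop :=
  ∀ C c : ℝ, ∃ Q : ℕ, ∀ (p : Fin d → ℤ) (q : ℕ), Q ≤ q → (∀ i, |α i - p i / q| ≤ c / (q : ℝ) ^ (1 + σ)) →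
    ∀ s : Fin k → ℕ, (∀ i j, (s i : ℝ) ≤ c * s j) → (∀ j, (q : ℝ) ≤ c * s j) → NearForms η θ c p q s →
      Lifts G w (C ^ q) s

/-- For all `k ≥ 1`, `d`, `σ`, `η`, `θ` the set of the `α` in `ℝ ^ d` for which `LiftsNear` fails for some admissible patterns in
`k` variables, of the same weight, whose constant parts have the property `P`, has Hausdorff dimension at most
`(d + (k (d + 2) - 1) η + k θ) / (1 + σ)`. -/
def Generic (G : MotivicValues) (P : List ℕ → Prop) : Prop :=
  ∀ k : ℕ, 1 ≤ k → ∀ (d : ℕ) (σ η θ : ℝ), 0 ≤ σ → 0 ≤ η → 0 ≤ θ → θ ≤ 1 →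
    dimH {α : Fin d → ℝ | ∃ (r : ℕ) (w : Fin r → List (Letter k)), SameWeight w ∧
      (∀ i, AdmissiblePattern (w i) ∧ P (constantPart (w i))) ∧ ¬ LiftsNear G w σ η θ α} ≤
        ENNReal.ofReal ((d + (k * (d + 2) - 1) * η + k * θ) / (1 + σ))

/-- For all admissible patterns in one variable, of the same weight, which contain the variable and whose constant parts have
the property `P`, `LiftsNear` holds at one real number. -/
def OnePoint (G : MotivicValues) (P : List ℕ → Prop) : Prop :=
  ∀ (r : ℕ) (w : Fin r → List (Letter 1)), SameWeight w →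
    (∀ i, AdmissiblePattern (w i) ∧ P (constantPart (w i)) ∧ HasVariable (w i)) →
      ∃ α : Fin 1 → ℝ, LiftsNear G w 1 0 0 α

/-! ### linear independence -/

lemma adm_words {w : List ℕ} (hw : ∀ s ∈ w, s = 2 ∨ s = 3) : Admissible w := by
  cases w with
  | nil => trivial
  | cons s l =>
    refine ⟨?_, fun t ht => ?_⟩
    · rcases hw s List.mem_cons_self with h | h <;> omega
    · rcases hw t (List.mem_cons_of_mem _ ht) with h | h <;> omega

/-- `per` is injective on the span of independent elements if and only if the multiple zeta values are independent -/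
lemma indep_iff (G : MotivicValues) (S : Set (List ℕ)) (hS : ∀ q ∈ S, Admissible q)
    (hI : LinearIndependent ℚ fun w : S => G.mot w) :
    (∀ x ∈ Submodule.span ℚ (G.mot '' S), G.per x = 0 → x = 0) ↔ LinearIndependent ℚ fun w : S => mzv w := by
  obtain ⟨f, hf⟩ : ∃ f : G.H →ₗ[ℚ] ℂ, ∀ x, f x = G.per x := ⟨G.per.toRatAlgHom.toLinearMap, fun _ => rfl⟩
  obtain ⟨g, hg⟩ : ∃ g : ℝ →ₗ[ℚ] ℂ, ∀ x, g x = (x : ℂ) := ⟨Complex.ofRealHom.toRatAlgHom.toLinearMap, fun _ => rfl⟩
  have hginj : Function.Injective g := fun x y h => by
    rw [hg, hg] at h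
    exact_mod_cast h
  have h1 : LinearIndependent ℚ (fun w : S => mzv w) ↔ LinearIndependent ℚ (f ∘ fun w : S => G.mot w) := by
    rw [← g.linearIndependent_iff (LinearMap.ker_eq_bot.2 hginj)]
    have h2 : (g ∘ fun w : S => mzv w) = f ∘ fun w : S => G.mot w := by
      funext w
      simp only [Function.comp, hg, hf, G.per_mot w (hS w w.2)]
    rw [h2]
  rw [h1]
  have hr : Set.range (fun w : S => G.mot w) = G.mot '' S := (Set.image_eq_range _ _).symm
  constructor
  · intro h
    refine hI.map ?_
    rw [hr, Submodule.disjoint_def]
    intro x hx hk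
    exact h x hx (by rw [← hf]; exact hk)
  · intro h x hx h0
    rw [← hr] at hx
    obtain ⟨c, rfl⟩ := (Finsupp.mem_span_range_iff_exists_finsupp).1 hx
    have h2 : Finsupp.linearCombination ℚ (f ∘ fun w : S => G.mot w) c = 0 := by
      rw [← Finsupp.apply_linearCombination, Finsupp.linearCombination_apply, hf]
      exact h0
    have h3 := linearIndependent_iff.1 h c h2
    rw [h3, Finsupp.sum_zero_index]

lemma front (N d : ℕ∞) : FrontSet (words N d) := by
  refine ⟨⟨by simp, by simp, by simp⟩, fun q hq => adm_words hq.1, fun q hq q' h => ?_⟩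
  obtain ⟨t, rfl⟩ := h
  obtain ⟨h1, h2, h3⟩ := hq
  rw [List.count_append] at h2
  rw [List.sum_append] at h3
  refine ⟨fun s hs => h1 s (List.mem_append_left _ hs), le_trans ?_ h2, le_trans ?_ h3⟩
  · exact_mod_cast Nat.le_add_right _ _
  · exact_mod_cast Nat.le_add_right _ _

lemma first_iff (G : MotivicValues) (hG : HoffmanIndependent G) (N d : ℕ∞) :
    (∀ n, ∀ x ∈ Submodule.span ℚ (G.mot '' {q ∈ words N d | q.sum = n}), G.per x = 0 → x = 0) ↔
      ∀ k : ℕ, (k : ℕ∞) ≤ N → LinearIndependent ℚ fun w : C k d => mzv w := by
  have hind : ∀ k, LinearIndependent ℚ fun w : C k d => G.mot w := fun k =>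
    (hG k).comp (Set.inclusion fun w hw => ⟨hw.1, le_top, hw.2.2⟩) (Set.inclusion_injective _)
  have hiff := fun k => indep_iff G (C k d) (fun q hq => adm_words hq.1) (hind k)
  constructor
  · intro h n hn
    rw [← hiff n]
    intro x hx
    refine h n x (Submodule.span_mono (Set.image_mono ?_) hx)
    rintro q ⟨h1, h2, h3⟩
    exact ⟨⟨h1, h2, by rw [h3]; exact hn⟩, h3⟩
  · intro h n x hx
    by_cases hn : (n : ℕ∞) ≤ N
    · refine (hiff n).2 (h n hn) x (Submodule.span_mono (Set.image_mono ?_) hx)
      rintro q ⟨⟨h1, h2, -⟩, h3⟩
      exact ⟨h1, h2, h3⟩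
    · have he : {q ∈ words N d | q.sum = n} = ∅ := by
        ext q
        simp only [Set.mem_ofPred_eq, Set.mem_empty_iff_false, iff_false, not_and]
        intro h1 h2
        apply hn
        rw [← h2]
        exact h1.2.2
      rw [he, Set.image_empty, Submodule.span_empty, Submodule.mem_bot] at hx
      exact fun _ => hx

/-! ### generic tuples -/

lemma near_iff (G : MotivicValues) {k r d : ℕ} (w : Fin r → List (Letter k)) (σ η θ : ℝ) (α : Fin d → ℝ) :
    LiftsNear G w σ η θ α ↔ Run7.h467.GA.Holds σ η θ (fun H s => ¬ Lifts G w H s) α := by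
  unfold LiftsNear Run7.h467.GA.Holds
  simp only [not_not]
  exact Iff.rfl

lemma mono (G : MotivicValues) {k r : ℕ} (w : Fin r → List (Letter k)) {H H' : ℝ} {s : Fin k → ℕ} (hH : H ≤ H')
    (h : Lifts G w H' s) : Lifts G w H s := fun c hc => h c fun i => (hc i).trans hH

lemma generic_of (G : MotivicValues) (P : List ℕ → Prop)
    (h : ∀ (k r : ℕ) (w : Fin r → List (Letter k)), SameWeight w →
      (∀ i, AdmissiblePattern (w i) ∧ P (constantPart (w i))) → AlmostAll k (Lifts G w)) : Generic G P := by
  intro k hk d σ η θ hσ hη hθ hθ1
  have h1 := Run7.h467.GA.metric hk (I := Σ r : ℕ, (Fin r → List (Letter k)))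
    (fun i => SameWeight i.2 ∧ ∀ j, AdmissiblePattern (i.2 j) ∧ P (constantPart (i.2 j)))
    (fun i H s => ¬ Lifts G i.2 H s) (fun i H H' s hH hn h' => hn (mono G i.2 hH h'))
    (fun i hi κ => h k i.1 i.2 hi.1 hi.2 κ) d hσ hη hθ hθ1
  refine (dimH_mono ?_).trans h1
  rintro α ⟨r, w, hs, hw, hH⟩
  exact ⟨⟨r, w⟩, ⟨hs, hw⟩, fun h2 => hH ((near_iff G w σ η θ α).2 h2)⟩

lemma one_of_generic (G : MotivicValues) (P : List ℕ → Prop) (h : Generic G P) : OnePoint G P := by
  have h1 := h 1 le_rfl 1 1 0 0 (by norm_num) le_rfl le_rfl zero_le_one
  obtain ⟨α, hα⟩ := Run7.h467.GA.exists_point le_rfl h1 (by norm_num)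
  intro r w hs hw
  refine ⟨α, ?_⟩
  by_contra hcon
  exact hα ⟨r, w, hs, fun i => ⟨(hw i).1, (hw i).2.1⟩, hcon⟩

lemma exists_of_one (G : MotivicValues) (P : List ℕ → Prop) (h : OnePoint G P) (r : ℕ) (w : Fin r → List (Letter 1))
    (hs : SameWeight w) (hw : ∀ i, AdmissiblePattern (w i) ∧ P (constantPart (w i)) ∧ HasVariable (w i)) (B : ℝ) :
    ∃ s : Fin 1 → ℕ, 2 ≤ s 0 ∧ Lifts G w B s := by
  obtain ⟨α, hα⟩ := h r w hs hw
  obtain ⟨s, h1, -, h3⟩ := Run7.h467.GA.one_point (E := fun H s => ¬ Lifts G w H s)
    (fun H H' s hH hn h' => hn (mono G w hH h')) (C := max B 1) (le_max_right _ _) ((near_iff G w 1 0 0 α).1 hα) 2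
  exact ⟨fun _ => s, h1, mono G w (le_max_left _ _) (not_not.1 h3)⟩

/-- **Theorem.** -/
theorem result (G : MotivicValues) :
    -- (1) linear independence of the families `H_{k,d}`, `k ≤ N`
    (HoffmanIndependent G → ∀ N d : ℕ∞, List.TFAE [
      ∀ k : ℕ, (k : ℕ∞) ≤ N → LinearIndependent ℚ fun w : C k d => mzv w,
      Generic G fun q => q ∈ words N d,
      OnePoint G fun q => q ∈ words N d]) ∧
    -- (2) constant parts of weight at most four, and constant parts without the letter `3`
    (SmallRelations G → EulerRelations G → Generic G fun q => q ∈ words 4 ⊤ ∪ words ⊤ 0) := by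
  obtain ⟨-, r2, -, r4, -⟩ := MP_e54452_nt.AlmostAllTuples.result G
  refine ⟨fun hG N d => ?_, fun hS hE => generic_of G _ fun k r w hs hw => r4 hS hE k r w hs fun i => ⟨(hw i).1, ?_⟩⟩
  · obtain ⟨-, t3, -⟩ := r2 (words N d) (front N d)
    have e12 := t3.out 0 1
    have e13 := t3.out 0 2
    tfae_have 1 → 2 := by
      intro h
      have hb := e12.1 ((first_iff G hG N d).2 h)
      exact generic_of G _ fun k r w hs hw => hb k r w hs hw
    tfae_have 2 → 3 := fun h => one_of_generic G _ h
    tfae_have 3 → 1 := by
      intro h
      refine (first_iff G hG N d).1 (e13.2 ?_)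
      intro r w hs hw B
      exact exists_of_one G _ h r w hs hw B
    tfae_finish
  · rcases (hw i).2 with h | h
    · left
      exact_mod_cast h.2.2
    · right
      refine ⟨(constantPart (w i)).length, 1, le_rfl, ?_⟩
      rw [mul_one]
      refine List.eq_replicate_of_mem fun s hs => ?_
      rcases h.1 s hs with h3 | h3
      · exact h3
      · exfalso
        have h4 : ((constantPart (w i)).count 3 : ℕ∞) ≤ 0 := h.2.1
        have h5 : (constantPart (w i)).count 3 = 0 := by
          have h6 : (constantPart (w i)).count 3 ≤ 0 := by exact_mod_cast h4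
          omega
        rw [List.count_eq_zero] at h5
        exact h5 (by rw [← h3]; exact hs)

end Pool.Agent.Results.MP_301213_nt.GoodApproximations
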