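import Mathlib
import Pool.Agent.Run7.h867.LH.Chain

/-!
# MP_301213_nt: large families of Hoffman elements of one weight without relations of bounded height

Let `N, d, J` be with `4 · 3 ^ J · d ≤ 3 N`, and `10 K log (2 H + 1) ≤ d J`. There are `K` words of length `N` in the letters
2, 3 with exactly `d` letters 3, so all of the weight `2 N + d`, whose multiple zeta values satisfy no linear relation with
real coefficients each of which is 0 or of absolute value between 1 and `H`, in particular no relation with integer
coefficients of absolute value at most `H`; every linear form is at least half of each of the values which occur in it.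
So in weight `n` there are of the order of `d log (n / d) / log (2 H + 1)` such Hoffman elements with exactly `d` threes, and
with `J = 1`, `d` about `n / 9`, of the order of `n / log (2 H + 1)` (height up to `exp (c n)`).

Proof. The letters 3 are moved one after the other towards the end of the word (the small summation variables), through `J`
blocks of places with distances `(3 ^ j - 1) d` from the end. Each of the `d J` moves is an exchange of a three with a two
and increases the value by a constant factor (exchange lemma of helper53), so every `k`-th word of this chain has a value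
which is at least `2 H + 1` times the value before it.
-/

set_option autoImplicit false

namespace Pool.Agent.Results.MP_301213_nt.LacunaryHoffmanFamilies

open Finset

/-- the multiple zeta value of the list `l`, the first entry belongs to the largest summation variable, in the words of
`S16469` -/
noncomputable def mzv (l : List ℕ) : ℝ :=
  ∑' m : {m : Fin l.length → ℕ // StrictAnti m ∧ ∀ i, 0 < m i}, ∏ i, ((m.1 i : ℝ) ^ (l.get i))⁻¹

lemma mzv_eq {l : List ℕ} (hl : Pool.Agent.H447R2.MZ.Adm l) : mzv l = Pool.Agent.H447R2.MZ.val l := by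
  have h1 := Pool.Agent.H447R2.MZ.hasSum_val l.length l.get (by rw [List.ofFn_get]; exact hl)
  rw [List.ofFn_get] at h1
  exact h1.tsum_eq

lemma cw_adm (N d J t : ℕ) : Pool.Agent.H447R2.MZ.Adm (Run7.h867.LH.cw N d J t) := by
  refine Run7.h53.FW.adm_of_two fun x hx => ?_
  rcases Run7.h867.LH.wd_or _ _ x hx with h | h <;> omega

/-- **Theorem.** -/
theorem result (N d J K H : ℕ) (hN : 4 * 3 ^ J * d ≤ 3 * N) (hH : 1 ≤ H)
    (hK : 10 * K * Real.log (2 * H + 1) ≤ d * J) :
    ∃ w : Fin K → List ℕ,
      (∀ i, (∀ a ∈ w i, a = 2 ∨ a = 3) ∧ (w i).length = N ∧ (w i).count 3 = d ∧ (w i).sum = 2 * N + d ∧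
        0 < mzv (w i)) ∧
      ∀ c : Fin K → ℝ, (∀ i, c i = 0 ∨ 1 ≤ |c i| ∧ |c i| ≤ H) →
        ∀ j, c j ≠ 0 → mzv (w j) / 2 ≤ |∑ i, c i * mzv (w i)| := by
  classical
  have hH1 : (1 : ℝ) ≤ H := by exact_mod_cast hH
  have hL1 : (1 : ℝ) ≤ Real.log (2 * H + 1) := by
    rw [Real.le_log_iff_exp_le (by positivity)]
    have := Real.exp_one_lt_d9
    linarith
  obtain ⟨k, hk⟩ : ∃ k : ℕ, k = ⌈9 * Real.log (2 * H + 1)⌉₊ := ⟨_, rfl⟩
  have hk1 : 9 * Real.log (2 * H + 1) ≤ k := by rw [hk]; exact Nat.le_ceil _
  have hk2 : (k : ℝ) ≤ 10 * Real.log (2 * H + 1) := by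
    rw [hk]
    have := Nat.ceil_lt_add_one (show (0 : ℝ) ≤ 9 * Real.log (2 * H + 1) by linarith)
    linarith
  have hKk : K * k ≤ J * d := by
    have h1 : (K : ℝ) * k ≤ J * d := by
      calc (K : ℝ) * k ≤ K * (10 * Real.log (2 * H + 1)) := mul_le_mul_of_nonneg_left hk2 (Nat.cast_nonneg _)
        _ = 10 * K * Real.log (2 * H + 1) := by ring
        _ ≤ d * J := hK
        _ = J * d := mul_comm _ _
    exact_mod_cast h1
  obtain ⟨u, hu⟩ : ∃ u : ℕ → ℝ, u = fun i => Pool.Agent.H447R2.MZ.val (Run7.h867.LH.cw N d J (k * i)) := ⟨_, rfl⟩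
  have hu0 : ∀ i, 0 < u i := by
    intro i
    rw [hu]
    have hl := cw_adm N d J (k * i)
    exact (Run7.h53.SX.H_pos _ le_rfl).trans_le (Pool.Agent.H447R2.MZ.H_le_val _ hl _)
  have hpow := Run7.h867.LH.pow_bound hk1
  have hstep : ∀ i, i + 1 < K → (2 * (H : ℝ) + 1) * u i ≤ u (i + 1) := by
    intro i hi
    have h1 : (i + 1) * k ≤ K * k := Nat.mul_le_mul_right _ hi.le
    have h2 : k * i + k = (i + 1) * k := by ring
    have h3 := Run7.h867.LH.chain_pow (t := k * i) hN k (by omega)
    have h4 : k * i + k = k * (i + 1) := by ring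
    rw [h4] at h3
    rw [hu]
    refine le_trans (mul_le_mul_of_nonneg_right hpow ?_) h3
    have := (hu0 i).le
    rw [hu] at this
    exact this
  have hmono : ∀ i j, i ≤ j → j < K → u i ≤ u j := by
    intro i j hij
    induction j, hij using Nat.le_induction with
    | base => intro _; exact le_rfl
    | succ j hij ih =>
      intro hj
      have h1 := ih (by omega)
      have h2 := hstep j hj
      have h3 := hu0 j
      nlinarith
  refine ⟨fun i => Run7.h867.LH.cw N d J (k * i), fun i => ⟨?_, ?_, ?_, ?_, ?_⟩, fun c hc j hj => ?_⟩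
  · exact Run7.h867.LH.wd_or _ _
  · exact Run7.h867.LH.wd_length _ _
  · unfold Run7.h867.LH.cw
    rw [Run7.h867.LH.wd_count]
    exact Run7.h867.LH.pl_card hN fun i' => Nat.sub_le _ _
  · unfold Run7.h867.LH.cw
    rw [Run7.h867.LH.wd_sum, Run7.h867.LH.pl_card (ℓ := Run7.h867.LH.lv J (k * i)) hN fun i' => Nat.sub_le _ _]
  · rw [mzv_eq (cw_adm _ _ _ _)]
    have := hu0 i
    rw [hu] at this
    exact this
  · have h1 := Run7.h867.LH.lac_form (u := u) (K := K) (H := H) (by positivity) (fun i => (hu0 i).le) hstep hmono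
      (fun i => if h : i < K then c ⟨i, h⟩ else 0) (fun i => by
        by_cases h : i < K
        · simp only [h, dif_pos]
          exact hc ⟨i, h⟩
        · left
          simp [h]) j j.2 (by simpa using hj)
    rw [mzv_eq (cw_adm _ _ _ _)]
    have h2 : ∑ i ∈ range K, (if h : i < K then c ⟨i, h⟩ else 0) * u i =
        ∑ i : Fin K, c i * mzv (Run7.h867.LH.cw N d J (k * i)) := by
      rw [Finset.sum_range]
      refine Finset.sum_congr rfl fun i _ => ?_
      rw [mzv_eq (cw_adm _ _ _ _), hu]
      simp
    rw [h2, hu] at h1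
    exact h1

end Pool.Agent.Results.MP_301213_nt.LacunaryHoffmanFamilies
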